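import Pool.Agent.N848.AW.Stm

/-!
# AW/XT: two lemmas on Laplacian systems over `𝔽₂`

With `R` the matrix of the first system, `E` the matrix of the second one and `v = t + g + h` one has
`Eᵀ = R + v tᵀ`. Let `B = R + e eᵀ` for a unit vector `e`. The first system has only the constant
solutions iff `det B ≠ 0`, the second one iff `det (B + v tᵀ) ≠ 0`, and the third one iff the
determinant of the bordered matrix of `B`, `v`, `t` is not zero. The sum of the three determinants
is zero.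
-/

set_option autoImplicit false

open scoped Classical

namespace Pool.Agent.N92.AW

open Finset Matrix Pool.Agent.N848.AW


noncomputable section

section mat

variable {n : Type} [Fintype n] [DecidableEq n]

/-- the matrix unit at `p₀` -/
def eQ (p₀ : n) : Matrix n n (ZMod 2) := Matrix.vecMulVec (Pi.single p₀ 1) (Pi.single p₀ 1)

lemma eQ_mulVec (p₀ : n) (x : n → ZMod 2) : eQ p₀ *ᵥ x = Pi.single p₀ (x p₀) := by
  unfold eQ
  ext p
  rw [Matrix.mulVec, dotProduct]
  simp only [Matrix.vecMulVec_apply]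
  rw [Finset.sum_eq_single p₀]
  · by_cases h : p = p₀
    · subst h; simp
    · simp [Pi.single_eq_of_ne h]
  · intro q _ hq
    simp [Pi.single_eq_of_ne hq]
  · intro h
    exact absurd (Finset.mem_univ _) h

lemma eQ_transpose (p₀ : n) : (eQ p₀)ᵀ = eQ p₀ := by
  unfold eQ
  rw [Matrix.transpose_vecMulVec]

lemma inj_iff_det {m : Type} [Fintype m] [DecidableEq m] (B : Matrix m m (ZMod 2)) :
    (∀ x, B *ᵥ x = 0 → x = 0) ↔ B.det ≠ 0 := by
  rw [Ne, ← Matrix.exists_mulVec_eq_zero_iff]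
  push Not
  constructor
  · intro h v hv h0
    exact hv (h v h0)
  · intro h x hx
    by_contra hx0
    exact h x hx0 hx

lemma sum_mulVec_zero (R : Matrix n n (ZMod 2)) (h2 : Rᵀ *ᵥ 1 = 0) (x : n → ZMod 2) :
    ∑ p, (R *ᵥ x) p = 0 := by
  have h3 : ∑ p, (R *ᵥ x) p = (Rᵀ *ᵥ 1) ⬝ᵥ x := by
    rw [Matrix.mulVec_transpose, ← Matrix.dotProduct_mulVec, dotProduct]
    simp
  rw [h3, h2, zero_dotProduct]

lemma const_iff (R : Matrix n n (ZMod 2)) (h1 : R *ᵥ 1 = 0) (h2 : Rᵀ *ᵥ 1 = 0) (p₀ : n) :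
    (∀ x, R *ᵥ x = 0 → ∃ c, ∀ p, x p = c) ↔ (R + eQ p₀).det ≠ 0 := by
  rw [← inj_iff_det]
  constructor
  · intro h x hx
    rw [Matrix.add_mulVec, eQ_mulVec] at hx
    have h3 : x p₀ = 0 := by
      have h4 : ∑ p, (R *ᵥ x + Pi.single p₀ (x p₀) : n → ZMod 2) p = 0 := by rw [hx]; simp
      simp only [Pi.add_apply, Finset.sum_add_distrib, sum_mulVec_zero R h2, zero_add,
        Finset.sum_pi_single', Finset.mem_univ, if_true] at h4
      exact h4
    rw [h3, Pi.single_zero, add_zero] at hx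
    obtain ⟨c, hc⟩ := h x hx
    ext p
    rw [hc p, ← hc p₀, h3]
    rfl
  · intro h x hx
    refine ⟨x p₀, fun p => ?_⟩
    have h3 : x + x p₀ • (1 : n → ZMod 2) = 0 := by
      apply h
      rw [Matrix.add_mulVec, Matrix.mulVec_add, Matrix.mulVec_smul, h1, smul_zero, add_zero, hx,
        zero_add, eQ_mulVec]
      simp [CharTwo.add_self_eq_zero]
    have h4 := congrFun h3 p
    simp only [Pi.add_apply, Pi.smul_apply, Pi.one_apply, smul_eq_mul, mul_one, Pi.zero_apply] at h4
    exact CharTwo.add_eq_zero.1 h4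

/-- the bordered matrix -/
def bord (B : Matrix n n (ZMod 2)) (v t : n → ZMod 2) (y : ZMod 2) :
    Matrix (n ⊕ Unit) (n ⊕ Unit) (ZMod 2) :=
  Matrix.fromBlocks B (Matrix.replicateCol Unit v) (Matrix.replicateRow Unit t)
    (y • (1 : Matrix Unit Unit (ZMod 2)))

lemma bord_one (B : Matrix n n (ZMod 2)) (v t : n → ZMod 2) :
    (bord B v t 1).det = (B + Matrix.vecMulVec v t).det := by
  unfold bord
  rw [one_smul, Matrix.det_fromBlocks_one₂₂]
  congr 1
  ext p q
  rw [Matrix.sub_apply, Matrix.add_apply, CharTwo.sub_eq_add]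
  congr 1
  simp [Matrix.mul_apply, Matrix.vecMulVec_apply]

lemma bord_add (B : Matrix n n (ZMod 2)) (v t : n → ZMod 2) :
    (bord B v t 1).det = (bord B v t 0).det + B.det := by
  have h1 : bord B v t 1 = (bord B v t 0).updateRow (Sum.inr ())
      ((bord B v t 0) (Sum.inr ()) + Sum.elim (0 : n → ZMod 2) (1 : Unit → ZMod 2)) := by
    ext i j
    rcases i with i | i <;> rcases j with j | j <;>
      simp [bord, Matrix.updateRow_apply]
  have h2 : (bord B v t 0).updateRow (Sum.inr ())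
      (Sum.elim (0 : n → ZMod 2) (1 : Unit → ZMod 2)) =
      Matrix.fromBlocks B (Matrix.replicateCol Unit v) 0 (1 : Matrix Unit Unit (ZMod 2)) := by
    ext i j
    rcases i with i | i <;> rcases j with j | j <;>
      simp [bord, Matrix.updateRow_apply]
  rw [h1, Matrix.det_updateRow_add, Matrix.updateRow_eq_self, h2, Matrix.det_fromBlocks_zero₂₁,
    Matrix.det_one, mul_one]

end mat

section main

variable {V : Type} (S : Finset V) (A : V → V → ZMod 2) (t g h : V → ZMod 2)

/-- the matrix of the Laplacian -/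
def LM : Matrix S S (ZMod 2) :=
  Matrix.of fun p q => A p q + if p = q then ∑ r : S, A p r else 0

/-- the restriction -/
def rs (f : V → ZMod 2) : S → ZMod 2 := fun p => f p

lemma LM_mulVec (x : V → ZMod 2) (p : S) : (LM S A *ᵥ rs S x) p = Lp S A x p := by
  unfold LM Lp rs
  rw [Matrix.mulVec, dotProduct]
  simp only [Matrix.of_apply, add_mul, Finset.sum_add_distrib, ite_mul, zero_mul,
    Finset.sum_ite_eq, Finset.mem_univ, if_true]
  rw [← Finset.sum_coe_sort S (fun q => A p q * (x p + x q))]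
  simp only [mul_add, Finset.sum_add_distrib]
  rw [add_comm, Finset.sum_mul]

lemma dt_eq (f x : V → ZMod 2) : dt S f x = rs S f ⬝ᵥ rs S x := by
  unfold dt rs
  rw [dotProduct, ← Finset.sum_coe_sort S (fun q => f q * x q)]

lemma exists_rs (x : S → ZMod 2) : ∃ x' : V → ZMod 2, rs S x' = x := by
  refine ⟨fun p => if hp : p ∈ S then x ⟨p, hp⟩ else 0, ?_⟩
  ext p
  show (if hp : (p : V) ∈ S then x ⟨p, hp⟩ else 0) = x p
  rw [dif_pos p.2]

lemma Cst_iff (x : V → ZMod 2) : Cst S x ↔ ∃ c, ∀ p, rs S x p = c := by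
  unfold Cst rs
  constructor
  · rintro ⟨c, hc⟩
    exact ⟨c, fun p => hc p p.2⟩
  · rintro ⟨c, hc⟩
    exact ⟨c, fun p hp => hc ⟨p, hp⟩⟩

/-- the first matrix -/
def RM : Matrix S S (ZMod 2) := LM S A + Matrix.vecMulVec (rs S g) (rs S t)

/-- the second matrix -/
def EM : Matrix S S (ZMod 2) :=
  LM S A + Matrix.diagonal (rs S t) + Matrix.vecMulVec (rs S t) (rs S h)

variable {S A t g h}

lemma sq2 (a : ZMod 2) : a * a + a = 0 := by
  revert a; decide

lemma LM_transpose (H : Hyp S A t g h) : (LM S A)ᵀ =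
    LM S A + Matrix.vecMulVec (rs S t) (rs S t) + Matrix.diagonal (rs S t) := by
  ext p q
  rw [Matrix.transpose_apply, Matrix.add_apply, Matrix.add_apply, Matrix.vecMulVec_apply]
  unfold LM rs
  by_cases hpq : p = q
  · subst hpq
    rw [Matrix.diagonal_apply_eq, add_assoc, sq2, add_zero]
  · rw [Matrix.diagonal_apply_ne _ hpq, add_zero, Matrix.of_apply, Matrix.of_apply,
      if_neg (Ne.symm hpq), if_neg hpq, add_zero, add_zero]
    have h1 := H.rc p p.2 q q.2 (fun hh => hpq (Subtype.ext hh))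
    rw [← h1, ← add_assoc, CharTwo.add_self_eq_zero, zero_add]

lemma sum_rs (f : V → ZMod 2) : rs S f ⬝ᵥ 1 = ∑ p ∈ S, f p := by
  unfold rs
  rw [dotProduct, ← Finset.sum_coe_sort S (fun q => f q)]
  simp

lemma vMV (a b x : S → ZMod 2) : Matrix.vecMulVec a b *ᵥ x = (b ⬝ᵥ x) • a := by
  ext p
  rw [Matrix.mulVec, dotProduct, dotProduct, Pi.smul_apply, smul_eq_mul, Finset.sum_mul]
  exact Finset.sum_congr rfl fun q _ => by rw [Matrix.vecMulVec_apply]; ring

lemma LM_one : LM S A *ᵥ 1 = 0 := by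
  have h1 : (1 : S → ZMod 2) = rs S (fun _ => 1) := rfl
  rw [h1]
  ext p
  rw [LM_mulVec]
  unfold Lp
  simp [CharTwo.add_self_eq_zero]

lemma LMT_one (H : Hyp S A t g h) : (LM S A)ᵀ *ᵥ 1 = rs S t := by
  rw [LM_transpose H, Matrix.add_mulVec, Matrix.add_mulVec, LM_one, vMV, sum_rs, H.t0, zero_smul,
    zero_add, zero_add]
  ext p
  rw [Matrix.mulVec_diagonal]
  simp

lemma RM_one (H : Hyp S A t g h) : RM S A t g *ᵥ 1 = 0 := by
  unfold RM
  rw [Matrix.add_mulVec, LM_one, vMV, sum_rs, H.t0, zero_smul, zero_add]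

lemma RMT_one (H : Hyp S A t g h) : (RM S A t g)ᵀ *ᵥ 1 = 0 := by
  unfold RM
  rw [Matrix.transpose_add, Matrix.transpose_vecMulVec, Matrix.add_mulVec, LMT_one H, vMV, sum_rs,
    H.g1, one_smul]
  ext p
  exact CharTwo.add_self_eq_zero _

lemma diag_one : Matrix.diagonal (rs S t) *ᵥ 1 = rs S t := by
  ext p
  rw [Matrix.mulVec_diagonal]
  simp

lemma EM_one (H : Hyp S A t g h) : EM S A t h *ᵥ 1 = 0 := by
  unfold EM
  rw [Matrix.add_mulVec, Matrix.add_mulVec, LM_one, vMV, sum_rs, H.h1, one_smul, zero_add, diag_one]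
  ext p
  exact CharTwo.add_self_eq_zero _

lemma EMT_one (H : Hyp S A t g h) : (EM S A t h)ᵀ *ᵥ 1 = 0 := by
  unfold EM
  rw [Matrix.transpose_add, Matrix.transpose_add, Matrix.transpose_vecMulVec,
    Matrix.diagonal_transpose, Matrix.add_mulVec, Matrix.add_mulVec, LMT_one H, vMV, sum_rs,
    H.t0, zero_smul, add_zero, diag_one]
  ext p
  exact CharTwo.add_self_eq_zero _

lemma RM_mulVec (x : V → ZMod 2) (p : S) :
    (RM S A t g *ᵥ rs S x) p = Lp S A x p + g p * dt S t x := by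
  unfold RM
  rw [Matrix.add_mulVec, Pi.add_apply, LM_mulVec, vMV, Pi.smul_apply, smul_eq_mul, dt_eq, mul_comm]
  rfl

lemma EM_mulVec (x : V → ZMod 2) (p : S) :
    (EM S A t h *ᵥ rs S x) p = Lp S A x p + t p * x p + t p * dt S h x := by
  unfold EM
  rw [Matrix.add_mulVec, Matrix.add_mulVec, Pi.add_apply, Pi.add_apply, LM_mulVec, vMV,
    Pi.smul_apply, smul_eq_mul, dt_eq, mul_comm (rs S h ⬝ᵥ rs S x), Matrix.mulVec_diagonal]
  rfl

lemma RMT_mulVec (H : Hyp S A t g h) (x : V → ZMod 2) (p : S) :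
    ((RM S A t g)ᵀ *ᵥ rs S x) p =
      Lp S A x p + t p * dt S t x + t p * x p + t p * dt S g x := by
  unfold RM
  rw [Matrix.transpose_add, Matrix.transpose_vecMulVec, LM_transpose H, Matrix.add_mulVec,
    Matrix.add_mulVec, Matrix.add_mulVec, Pi.add_apply, Pi.add_apply, Pi.add_apply, LM_mulVec, vMV,
    vMV, Pi.smul_apply, Pi.smul_apply, smul_eq_mul, smul_eq_mul, dt_eq, dt_eq,
    mul_comm (rs S g ⬝ᵥ rs S x), mul_comm (rs S t ⬝ᵥ rs S x), Matrix.mulVec_diagonal]
  rfl

lemma EMT_mulVec (H : Hyp S A t g h) (x : V → ZMod 2) (p : S) :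
    ((EM S A t h)ᵀ *ᵥ rs S x) p = Lp S A x p + t p * dt S t x + h p * dt S t x := by
  unfold EM
  rw [Matrix.transpose_add, Matrix.transpose_add, Matrix.transpose_vecMulVec,
    Matrix.diagonal_transpose, LM_transpose H, Matrix.add_mulVec,
    Matrix.add_mulVec, Matrix.add_mulVec, Matrix.add_mulVec, Pi.add_apply, Pi.add_apply,
    Pi.add_apply, Pi.add_apply, LM_mulVec, vMV,
    vMV, Pi.smul_apply, Pi.smul_apply, smul_eq_mul, smul_eq_mul, dt_eq,
    mul_comm (rs S t ⬝ᵥ rs S x), mul_comm (rs S t ⬝ᵥ rs S x), Matrix.mulVec_diagonal]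
  show Lp S A x p + rs S t p * (rs S t ⬝ᵥ rs S x) + t p * x p + t p * x p +
    rs S h p * (rs S t ⬝ᵥ rs S x) = _
  rw [add_assoc (Lp S A x p + rs S t p * (rs S t ⬝ᵥ rs S x)), CharTwo.add_self_eq_zero, add_zero]
  rfl

lemma GA_iff : GA S A t g ↔ ∀ x, RM S A t g *ᵥ x = 0 → ∃ c, ∀ p, x p = c := by
  unfold GA
  constructor
  · intro H x hx
    obtain ⟨x', rfl⟩ := exists_rs S x
    refine (Cst_iff S x').1 (H x' fun p hp => ?_)
    have := congrFun hx ⟨p, hp⟩
    rwa [RM_mulVec] at this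
  · intro H x hx
    refine (Cst_iff S x).2 (H (rs S x) ?_)
    ext p
    rw [RM_mulVec]
    exact hx p p.2

lemma GB_iff : GB S A t h ↔ ∀ x, EM S A t h *ᵥ x = 0 → ∃ c, ∀ p, x p = c := by
  unfold GB
  constructor
  · intro H x hx
    obtain ⟨x', rfl⟩ := exists_rs S x
    refine (Cst_iff S x').1 (H x' fun p hp => ?_)
    have := congrFun hx ⟨p, hp⟩
    rwa [EM_mulVec] at this
  · intro H x hx
    refine (Cst_iff S x).2 (H (rs S x) ?_)
    ext p
    rw [EM_mulVec]
    exact hx p p.2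

lemma GAt_iff (H : Hyp S A t g h) :
    GAt S A t g ↔ ∀ x, (RM S A t g)ᵀ *ᵥ x = 0 → ∃ c, ∀ p, x p = c := by
  unfold GAt
  constructor
  · intro H' x hx
    obtain ⟨x', rfl⟩ := exists_rs S x
    refine (Cst_iff S x').1 (H' x' fun p hp => ?_)
    have := congrFun hx ⟨p, hp⟩
    rwa [RMT_mulVec H] at this
  · intro H' x hx
    refine (Cst_iff S x).2 (H' (rs S x) ?_)
    ext p
    rw [RMT_mulVec H]
    exact hx p p.2

lemma GBt_iff (H : Hyp S A t g h) :
    GBt S A t h ↔ ∀ x, (EM S A t h)ᵀ *ᵥ x = 0 → ∃ c, ∀ p, x p = c := by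
  unfold GBt
  constructor
  · intro H' x hx
    obtain ⟨x', rfl⟩ := exists_rs S x
    refine (Cst_iff S x').1 (H' x' fun p hp => ?_)
    have := congrFun hx ⟨p, hp⟩
    rwa [EMT_mulVec H] at this
  · intro H' x hx
    refine (Cst_iff S x).2 (H' (rs S x) ?_)
    ext p
    rw [EMT_mulVec H]
    exact hx p p.2

lemma exists_pt (H : Hyp S A t g h) : Nonempty S := by
  by_contra hne
  rw [not_nonempty_iff] at hne
  have h1 : S = ∅ := by
    rw [Finset.eq_empty_iff_forall_notMem]
    exact fun p hp => hne.false ⟨p, hp⟩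
  have h2 := H.g1
  rw [h1, Finset.sum_empty] at h2
  exact absurd h2 (by decide)

lemma EM_transpose (H : Hyp S A t g h) : (EM S A t h)ᵀ =
    RM S A t g + Matrix.vecMulVec (rs S t + rs S g + rs S h) (rs S t) := by
  unfold EM RM
  rw [Matrix.transpose_add, Matrix.transpose_add, Matrix.transpose_vecMulVec,
    Matrix.diagonal_transpose, LM_transpose H]
  ext p q
  simp only [Matrix.add_apply, Matrix.vecMulVec_apply, Pi.add_apply]
  have h1 : Matrix.diagonal (rs S t) p q + Matrix.diagonal (rs S t) p q = 0 :=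
    CharTwo.add_self_eq_zero _
  have h2 : rs S g p * rs S t q + rs S g p * rs S t q = 0 := CharTwo.add_self_eq_zero _
  linear_combination h1 - h2

/-- the third system -/
lemma GC_iff (H : Hyp S A t g h) (p₀ : S) : GC S A t g h ↔
    (bord (RM S A t g + eQ p₀) (rs S t + rs S g + rs S h) (rs S t) 0).det ≠ 0 := by
  rw [← inj_iff_det]
  have hv : (rs S t + rs S g + rs S h) ⬝ᵥ 1 = 0 := by
    rw [add_dotProduct, add_dotProduct, sum_rs, sum_rs, sum_rs, H.t0, H.g1, H.h1]
    decide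
  have hmul : ∀ (x : S → ZMod 2) (y : Unit → ZMod 2),
      bord (RM S A t g + eQ p₀) (rs S t + rs S g + rs S h) (rs S t) 0 *ᵥ Sum.elim x y =
      Sum.elim ((RM S A t g + eQ p₀) *ᵥ x + y () • (rs S t + rs S g + rs S h))
        (fun _ => rs S t ⬝ᵥ x) := by
    intro x y
    unfold bord
    rw [zero_smul, Matrix.fromBlocks_mulVec]
    congr 1
    · simp only [Sum.elim_comp_inl, Sum.elim_comp_inr]
      congr 1
      ext p
      simp [Matrix.mulVec, dotProduct, mul_comm]
    · simp only [Sum.elim_comp_inl, Sum.elim_comp_inr]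
      ext i
      simp [Matrix.mulVec, dotProduct]
  constructor
  · intro hC z hz
    obtain ⟨x, hx⟩ : ∃ x : S → ZMod 2, x = z ∘ Sum.inl := ⟨_, rfl⟩
    obtain ⟨y, hy⟩ : ∃ y : Unit → ZMod 2, y = z ∘ Sum.inr := ⟨_, rfl⟩
    have hzz : z = Sum.elim x y := by rw [hx, hy, Sum.elim_comp_inl_inr]
    rw [hzz, hmul] at hz
    have h1 : (RM S A t g + eQ p₀) *ᵥ x + y () • (rs S t + rs S g + rs S h) = 0 := by
      ext p
      exact congrFun hz (Sum.inl p)
    have h2 : rs S t ⬝ᵥ x = 0 := congrFun hz (Sum.inr ())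
    rw [Matrix.add_mulVec, eQ_mulVec] at h1
    have h3 : x p₀ = 0 := by
      have h4 : ∑ p, (RM S A t g *ᵥ x + Pi.single p₀ (x p₀) +
          y () • (rs S t + rs S g + rs S h) : S → ZMod 2) p = 0 := by rw [h1]; simp
      have h5 : ∑ p, (y () • (rs S t + rs S g + rs S h) : S → ZMod 2) p = 0 := by
        have : ∑ p, (y () • (rs S t + rs S g + rs S h) : S → ZMod 2) p =
            y () * ((rs S t + rs S g + rs S h) ⬝ᵥ 1) := by
          rw [dotProduct, Finset.mul_sum]
          simp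
        rw [this, hv, mul_zero]
      simp only [Pi.add_apply, Finset.sum_add_distrib] at h4 h5
      rw [h5, sum_mulVec_zero _ (RMT_one H)] at h4
      simpa using h4
    rw [h3, Pi.single_zero, add_zero] at h1
    obtain ⟨x', rfl⟩ := exists_rs S x
    have h6 := hC x' (y ()) (by rw [dt_eq]; exact h2) (fun p hp => by
      have h7 := congrFun h1 ⟨p, hp⟩
      rw [Pi.add_apply, RM_mulVec, dt_eq, h2, mul_zero, add_zero] at h7
      exact h7)
    obtain ⟨c, hc⟩ := (Cst_iff S x').1 h6.1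
    rw [hzz]
    ext i
    rcases i with p | i
    · rw [Sum.elim_inl, hc p, ← hc p₀, h3]
      rfl
    · rw [Sum.elim_inr]
      exact h6.2
  · intro hK x y h2 h1
    rw [dt_eq] at h2
    have h3 := hK (Sum.elim (rs S x + x p₀ • (1 : S → ZMod 2)) (fun _ => y)) (by
      rw [hmul]
      have h4 : rs S t ⬝ᵥ (rs S x + x p₀ • (1 : S → ZMod 2)) = 0 := by
        rw [dotProduct_add, dotProduct_smul, sum_rs, H.t0, smul_zero, add_zero, h2]
      rw [h4]
      have h5 : (RM S A t g + eQ p₀) *ᵥ (rs S x + x p₀ • (1 : S → ZMod 2)) +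
          y • (rs S t + rs S g + rs S h) = 0 := by
        rw [Matrix.add_mulVec, Matrix.mulVec_add, Matrix.mulVec_smul, RM_one H, smul_zero, add_zero,
          eQ_mulVec]
        have h6 : (rs S x + x p₀ • (1 : S → ZMod 2)) p₀ = 0 := by
          simp only [Pi.add_apply, Pi.smul_apply, Pi.one_apply, smul_eq_mul, mul_one]
          exact CharTwo.add_self_eq_zero _
        rw [h6, Pi.single_zero, add_zero]
        ext p
        rw [Pi.add_apply, RM_mulVec, dt_eq, h2, mul_zero, add_zero]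
        exact h1 p p.2
      rw [h5]
      ext i
      rcases i with p | i <;> rfl)
    refine ⟨(Cst_iff S x).2 ⟨x p₀, fun p => ?_⟩, ?_⟩
    · have h4 := congrFun h3 (Sum.inl p)
      simp only [Sum.elim_inl, Pi.add_apply, Pi.smul_apply, Pi.one_apply, smul_eq_mul, mul_one,
        Pi.zero_apply] at h4
      exact CharTwo.add_eq_zero.1 h4
    · exact congrFun h3 (Sum.inr ())

end main

theorem t_XOR : S_XOR := by
  intro V S A t g h H
  obtain ⟨p₀⟩ := exists_pt H
  have hA : GA S A t g ↔ (RM S A t g + eQ p₀).det ≠ 0 := by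
    rw [GA_iff, const_iff _ (RM_one H) (RMT_one H) p₀]
  have hB : GB S A t h ↔ (RM S A t g + eQ p₀ +
      Matrix.vecMulVec (rs S t + rs S g + rs S h) (rs S t)).det ≠ 0 := by
    rw [GB_iff, const_iff _ (EM_one H) (EMT_one H) p₀, ← Matrix.det_transpose,
      Matrix.transpose_add, eQ_transpose, EM_transpose H, add_right_comm]
  have hC := GC_iff H p₀
  have h1 := bord_one (RM S A t g + eQ p₀) (rs S t + rs S g + rs S h) (rs S t)
  have h2 := bord_add (RM S A t g + eQ p₀) (rs S t + rs S g + rs S h) (rs S t)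
  rw [h1] at h2
  rw [hA, hB, hC, h2]
  generalize (bord (RM S A t g + eQ p₀) (rs S t + rs S g + rs S h) (rs S t) 0).det = a
  generalize (RM S A t g + eQ p₀).det = b
  revert a b
  decide

theorem t_TR : S_TR := by
  intro V S A t g h H
  obtain ⟨p₀⟩ := exists_pt H
  constructor
  · rw [GA_iff, GAt_iff H, const_iff _ (RM_one H) (RMT_one H) p₀,
      const_iff _ (RMT_one H) (by rw [Matrix.transpose_transpose]; exact RM_one H) p₀]
    intro h1
    rwa [← Matrix.det_transpose, Matrix.transpose_add, eQ_transpose] at h1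
  · rw [GB_iff, GBt_iff H, const_iff _ (EM_one H) (EMT_one H) p₀,
      const_iff _ (EMT_one H) (by rw [Matrix.transpose_transpose]; exact EM_one H) p₀]
    intro h1
    rwa [← Matrix.det_transpose, Matrix.transpose_add, eQ_transpose] at h1

end

end Pool.Agent.N92.AW
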